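import Pool.Agent.Q214.MP59a.Asym

set_option autoImplicit false

open Matrix

namespace Pool.Agent.Results.MP_59a663_pr.NoConstantSparsity

/-- An outcome of the randomness: for every row `i` and every block `j` the sign of the nonzero
entry and its position inside the block. -/
abbrev Outcome (n b ζ : ℕ) : Type := Fin n → Fin ζ → Bool × Fin b

/-- Probability of an event when all signs and all positions are independent and uniform, that is,
the uniform law on the finite product of all signs and positions. -/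
noncomputable def prob {n b ζ : ℕ} (A : Set (Outcome n b ζ)) : ℝ :=
  (Nat.card A : ℝ) / (Nat.card (Outcome n b ζ) : ℝ)

/-- The SparseStack matrix with `k = b * ζ` columns; the columns are indexed by the pairs
(block, position in the block). Row `i` has in block `j` exactly one nonzero entry,
equal to plus or minus `1 / sqrt ζ`. -/
noncomputable def sparseStack {n b ζ : ℕ} (ω : Outcome n b ζ) :
    Matrix (Fin n) (Fin ζ × Fin b) ℝ :=
  fun i c => if (ω i c.1).2 = c.2 then (if (ω i c.1).1 then (1 : ℝ) else -1) / Real.sqrt ζ else 0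

/-- Injectivity with parameter `α` on `V`: `α ‖x‖² ≤ ‖Ωᵀ x‖²` for all `x ∈ V`. -/
def Injects {n b ζ : ℕ} (ω : Outcome n b ζ) (V : Submodule ℝ (Fin n → ℝ)) (α : ℝ) : Prop :=
  ∀ x ∈ V, α * ∑ i, x i ^ 2 ≤ ∑ c, ((sparseStack ω)ᵀ.mulVec x c) ^ 2

open Pool.Agent.Q214.MP59a

theorem prob_eq {n b ζ : ℕ} (A : Set (Outcome n b ζ)) :
    prob A = av (fun ω : Outcome n b ζ => ind (ω ∈ A)) := by
  classical
  unfold prob av ind
  rw [Finset.sum_boole, Nat.card_eq_fintype_card, Nat.card_eq_fintype_card]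
  congr 2
  rw [Fintype.card_subtype]

/-- The test vector. -/
noncomputable def test {n b ζ d : ℕ} (ω : Outcome n b ζ) (x : Mem ζ d → Fin n) (i : Fin n) : ℝ :=
  ∑ v, if x v = i then coef ω x v else 0

theorem test_root {n b ζ d : ℕ} (ω : Outcome n b ζ) (x : Mem ζ d → Fin n)
    (hx : Function.Injective x) : test ω x (x none) = 1 := by
  unfold test
  rw [Finset.sum_eq_single none]
  · simp [coef]
  · intro v _ hv
    rw [if_neg (fun h => hv (hx h))]
  · intro h; exact absurd (Finset.mem_univ _) h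

theorem mulVec_test {n b ζ d : ℕ} (ω : Outcome n b ζ) (x : Mem ζ d → Fin n) (j : Fin ζ)
    (s : Fin b) : (sparseStack ω)ᵀ.mulVec (test ω x) (j, s) =
      (∑ v, if (ω (x v) j).2 = s then coef ω x v * sg ω (x v) j else 0) / Real.sqrt ζ := by
  simp only [Matrix.mulVec, dotProduct, Matrix.transpose_apply, test]
  simp only [Finset.mul_sum]
  rw [Finset.sum_comm, Finset.sum_div]
  refine Finset.sum_congr rfl fun v _ => ?_
  simp only [mul_ite, mul_zero]
  rw [Finset.sum_ite_eq]
  simp only [Finset.mem_univ, if_true, sparseStack, sg]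
  split_ifs <;> ring

theorem energy_total {n b ζ d : ℕ} (hζ : 1 ≤ ζ) (hd : 1 ≤ d) (ω : Outcome n b ζ)
    (x : Mem ζ d → Fin n) (hG : Good ω x) :
    ∑ c, ((sparseStack ω)ᵀ.mulVec (test ω x) c) ^ 2 = ((ζ : ℝ) - 1) / d := by
  rw [Fintype.sum_prod_type]
  have hζ0 : (0 : ℝ) < ζ := by exact_mod_cast hζ
  have h : ∀ j : Fin ζ, ∑ s : Fin b, ((sparseStack ω)ᵀ.mulVec (test ω x) (j, s)) ^ 2 =
      (((ζ : ℝ) - 1) / d) / ζ := by
    intro j
    simp only [mulVec_test, div_pow, Real.sq_sqrt hζ0.le]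
    rw [← Finset.sum_div, energy hd ω x hG j]
  simp only [h, Finset.sum_const, Finset.card_univ, Fintype.card_fin, nsmul_eq_mul]
  field_simp

theorem not_injects {n b ζ d : ℕ} (hζ : 1 ≤ ζ) (hd : 1 ≤ d) (ω : Outcome n b ζ)
    (x : Mem ζ d → Fin n) (hx : Function.Injective x) (hG : Good ω x)
    (V : Submodule ℝ (Fin n → ℝ)) (hV : test ω x ∈ V) (α : ℝ) (hα : 0 < α)
    (hdα : ((ζ : ℝ) - 1) / d < α) : ¬ Injects ω V α := by
  intro h
  have h1 := h _ hV
  rw [energy_total hζ hd ω x hG] at h1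
  have h2 : 1 ≤ ∑ i, test ω x i ^ 2 := by
    have := Finset.single_le_sum (f := fun i => test ω x i ^ 2) (fun i _ => sq_nonneg _)
      (Finset.mem_univ (x none))
    simp only [test_root ω x hx] at this
    linarith
  have h3 := mul_le_mul_of_nonneg_left h2 hα.le
  linarith

/-- The coordinate subspace. -/
def coord (n r : ℕ) : Submodule ℝ (Fin n → ℝ) where
  carrier := {x | ∀ i : Fin n, r ≤ i.val → x i = 0}
  add_mem' := fun {x y} hx hy i hi => by
    have h1 := hx i hi
    have h2 := hy i hi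
    simp [h1, h2]
  zero_mem' := fun i _ => rfl
  smul_mem' := fun c x hx i hi => by
    have h1 := hx i hi
    simp [h1]

theorem finrank_coord (n r : ℕ) (h : r ≤ n) : Module.finrank ℝ (coord n r) = r := by
  let f : (Fin r → ℝ) →ₗ[ℝ] (Fin n → ℝ) :=
    { toFun := fun y i => if hi : i.val < r then y ⟨i.val, hi⟩ else 0
      map_add' := fun y z => by
        funext i
        simp only [Pi.add_apply]
        split_ifs <;> simp
      map_smul' := fun c y => by
        funext i
        simp only [Pi.smul_apply, smul_eq_mul, RingHom.id_apply]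
        split_ifs <;> simp }
  have hf : Function.Injective f := by
    intro y z hyz
    funext i
    have := congrFun hyz (Fin.castLE h i)
    simpa [f] using this
  have hr : LinearMap.range f = coord n r := by
    ext x
    constructor
    · rintro ⟨y, rfl⟩ i hi
      simp [f, not_lt.2 hi]
    · intro hx
      refine ⟨fun i => x (Fin.castLE h i), ?_⟩
      funext i
      by_cases hi : i.val < r
      · simp [f, hi]
      · simp [f, hi]
        exact (hx i (not_lt.1 hi)).symm
  rw [← hr, LinearMap.finrank_range_of_inj hf]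
  simp

theorem not_injects_of_lt {n b ζ : ℕ} (ω : Outcome n b ζ) (V : Submodule ℝ (Fin n → ℝ))
    (hV : b * ζ < Module.finrank ℝ V) (α : ℝ) (hα : 0 < α) : ¬ Injects ω V α := by
  intro h
  let f : V →ₗ[ℝ] (Fin ζ × Fin b → ℝ) := ((sparseStack ω)ᵀ.mulVecLin).comp V.subtype
  have h1 : Module.finrank ℝ (Fin ζ × Fin b → ℝ) < Module.finrank ℝ V := by
    simp only [Module.finrank_fintype_fun_eq_card, Fintype.card_prod, Fintype.card_fin]
    rw [mul_comm]; exact hV
  have h2 : LinearMap.ker f ≠ ⊥ := LinearMap.ker_ne_bot_of_finrank_lt h1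
  obtain ⟨x, hx, hx0⟩ := Submodule.exists_mem_ne_zero_of_ne_bot h2
  have h3 : (sparseStack ω)ᵀ.mulVec (x : Fin n → ℝ) = 0 := hx
  have h4 := h x x.2
  rw [h3] at h4
  simp only [Pi.zero_apply, ne_eq, OfNat.ofNat_ne_zero, not_false_eq_true, zero_pow,
    Finset.sum_const_zero] at h4
  have h5 : 0 < ∑ i, (x : Fin n → ℝ) i ^ 2 := by
    have hne : (x : Fin n → ℝ) ≠ 0 := fun h => hx0 (Subtype.ext h)
    obtain ⟨i, hi⟩ := Function.ne_iff.1 hne
    have hi' : (x : Fin n → ℝ) i ≠ 0 := hi
    exact Finset.sum_pos' (fun i _ => sq_nonneg _) ⟨i, Finset.mem_univ _, by positivity⟩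
  have := mul_pos hα h5
  linarith

/-- For all `C₁, C₂, α, η > 0` there is `r₀` such that for all `r ≥ r₀` and all `n ≥ r` there is an
`r`-dimensional subspace `V` of `ℝⁿ` for which, for every SparseStack with sparsity `ζ ≤ C₁` and
`k = b ζ ≤ C₂ r`, injectivity on `V` with parameter `α` has probability at most `η`. -/
theorem result : ∀ C₁ C₂ α η : ℝ, 0 < C₂ → 0 < α → 0 < η → ∃ r₀ : ℕ, ∀ r n : ℕ, r₀ ≤ r → r ≤ n →
    ∃ V : Submodule ℝ (Fin n → ℝ), Module.finrank ℝ V = r ∧
      ∀ ζ b : ℕ, 1 ≤ ζ → 1 ≤ b → (ζ : ℝ) ≤ C₁ → ((b * ζ : ℕ) : ℝ) ≤ C₂ * r →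
        prob {ω : Outcome n b ζ | Injects ω V α} ≤ η := by
  classical
  intro C₁ C₂ α η hC2 hα hη
  have hd : ∀ ζ : ℕ, ∃ d : ℕ, 1 ≤ d ∧ ((ζ : ℝ) - 1) / d < α := by
    intro ζ
    obtain ⟨d, hd⟩ := exists_nat_gt ((ζ : ℝ) / α)
    refine ⟨d + 1, by omega, ?_⟩
    rw [div_lt_iff₀ (by positivity)]
    rw [div_lt_iff₀ hα] at hd
    push_cast
    nlinarith
  choose d hd1 hdα using hd
  have hw : ∀ ζ : ℕ, ∃ r0 : ℕ, 1 ≤ ζ → ∀ r : ℕ, r0 ≤ r → ∀ b : ℕ, r ≤ b * ζ →
      ((b * ζ : ℕ) : ℝ) ≤ C₂ * r →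
      ∀ n m : ℕ, m = r / (ζ * d ζ + 1) → ∀ e : Mem ζ (d ζ) × Fin m → Fin n, Function.Injective e →
      1 - η ≤ av (fun ω : Outc n b ζ => ind (∃ τ, Good ω (vr e τ))) := by
    intro ζ
    by_cases h : 1 ≤ ζ
    · obtain ⟨r0, hr0⟩ := whp ζ (d ζ) h C₂ η hC2 hη
      exact ⟨r0, fun _ => hr0⟩
    · exact ⟨0, fun h' => absurd h' h⟩
  choose f hf using hw
  refine ⟨(Finset.range (⌊C₁⌋₊ + 1)).sup f, fun r n hr hrn => ?_⟩
  refine ⟨coord n r, finrank_coord n r hrn, fun ζ b hζ hb hζC hbC => ?_⟩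
  have hζm : ζ ∈ Finset.range (⌊C₁⌋₊ + 1) := by
    rw [Finset.mem_range, Nat.lt_succ_iff]
    exact Nat.le_floor hζC
  have hfr : f ζ ≤ r := (Finset.le_sup hζm).trans hr
  rcases lt_or_ge (b * ζ) r with hlt | hge
  · have : {ω : Outcome n b ζ | Injects ω (coord n r) α} = ∅ := by
      ext ω
      simp only [Set.mem_ofPred_eq, Set.mem_empty_iff_false, iff_false]
      exact not_injects_of_lt ω _ (by rw [finrank_coord n r hrn]; exact hlt) α hα
    rw [this]
    unfold prob
    simp
    exact hη.le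
  · obtain ⟨m, hm⟩ : ∃ m, m = r / (ζ * d ζ + 1) := ⟨_, rfl⟩
    have hcard : Fintype.card (Mem ζ (d ζ) × Fin m) ≤ Fintype.card (Fin r) := by
      simp only [Fintype.card_prod, Fintype.card_option, Fintype.card_fin]
      rw [hm]
      exact Nat.mul_div_le r _
    obtain ⟨g⟩ := Function.Embedding.nonempty_of_card_le hcard
    set e : Mem ζ (d ζ) × Fin m → Fin n := fun p => Fin.castLE hrn (g p) with he
    have heinj : Function.Injective e := fun p q h => g.injective (Fin.castLE_injective hrn h)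
    have hlow := hf ζ hζ r hfr b hge hbC n m hm e heinj
    rw [prob_eq]
    have hup : ∀ ω : Outcome n b ζ, ind (ω ∈ {ω : Outcome n b ζ | Injects ω (coord n r) α}) ≤
        1 - ind (∃ τ, Good ω (vr e τ)) := by
      intro ω
      by_cases hex : ∃ τ, Good ω (vr e τ)
      · rw [ind_true hex, sub_self]
        obtain ⟨τ, hG⟩ := hex
        refine (ind_false ?_).le
        refine not_injects hζ (hd1 ζ) ω _ (vr_inj e heinj τ) hG _ ?_ α hα (hdα ζ)
        intro i hi
        unfold test
        refine Finset.sum_eq_zero fun v _ => ?_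
        rw [if_neg]
        intro hvi
        rw [← hvi] at hi
        rcases v with _ | ⟨j, l⟩
        · simp only [vr, he, Fin.val_castLE] at hi
          exact absurd (g (none, τ.1)).2 (not_lt.2 hi)
        · simp only [vr, he, Fin.val_castLE] at hi
          exact absurd (g (some (j, l), τ.2 j l)).2 (not_lt.2 hi)
      · rw [ind_false hex, sub_zero]
        exact ind_le_one _
    have hb0 : Nonempty (Outcome n b ζ) := ⟨fun _ _ => (true, ⟨0, hb⟩)⟩
    refine (av_mono _ _ hup).trans ?_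
    rw [av_sub, av_const]
    linarith

end Pool.Agent.Results.MP_59a663_pr.NoConstantSparsity
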